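import Pool.Agent.Helper47.CW.Bsys1

/-!
Plan W (MP_c75db0), normalised star frame: the system of blocks `bsys2`, in which also the maximal
runs of the syllables `(false, 2)` and `(true, 2)` are blocks.
-/

set_option autoImplicit false
noncomputable section
namespace Pool.Agent.Helper6.MONO.W2

/-- admissible blocks of the second system -/
structure SBl.Ok2 (p q r : ℕ) (b : SBl) : Prop where
  k1 : 1 ≤ b.k
  kp : b.k ≤ p
  ka : b.a = true → b.k < p
  n1 : 1 ≤ b.n
  ev : b.k % 2 = 0 → b.k ≠ 2 → b.n = 1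
  run : b.k = 1 → 2 * b.n + 1 ≤ mqr q r b.a

/-- not the same reflection, not the same rotation of length 2 -/
def SyNe2 (s t : Sy) : Prop := ¬ (s = t ∧ (s.2 % 2 = 1 ∨ s.2 = 2))

/-- a block with the types of its neighbours, second system -/
structure TB2 (p q r : ℕ) where
  prev : Sy
  cur : SBl
  next : Sy
  okp : SyOk p prev
  okc : cur.Ok2 p q r
  okn : SyOk p next
  ne1 : SyNe2 prev cur.sy
  ne2 : SyNe2 cur.sy next

def TB2.src {p q r : ℕ} (b : TB2 p q r) : Sy × Sy := (b.prev, b.cur.sy)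
def TB2.tgt {p q r : ℕ} (b : TB2 p q r) : Sy × Sy := (b.cur.sy, b.next)

theorem SBl.Ok.ok2 {p q r : ℕ} {b : SBl} (h : b.Ok p q r) : b.Ok2 p q r :=
  ⟨h.k1, h.kp, h.ka, h.n1, fun h1 _ => h.ev h1, h.run⟩

/-- grouping of the syllables of length 2 -/
def grp2 : List SBl → List SBl
  | [] => []
  | b :: bs => match grp2 bs with
    | [] => [b]
    | c :: cs => if b.k = 2 ∧ c.sy = b.sy then ⟨b.a, b.k, b.n + c.n⟩ :: cs else b :: c :: cs

theorem grp2_nil : grp2 [] = [] := rfl

theorem grp2_cons_nil (b : SBl) (bs : List SBl) (h : grp2 bs = []) : grp2 (b :: bs) = [b] := by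
  rw [grp2, h]

theorem grp2_cons_pos (b : SBl) (bs : List SBl) (c : SBl) (cs : List SBl)
    (h : grp2 bs = c :: cs) (hc : b.k = 2 ∧ c.sy = b.sy) :
    grp2 (b :: bs) = ⟨b.a, b.k, b.n + c.n⟩ :: cs := by
  rw [grp2, h]
  exact if_pos hc

theorem grp2_cons_neg (b : SBl) (bs : List SBl) (c : SBl) (cs : List SBl)
    (h : grp2 bs = c :: cs) (hc : ¬ (b.k = 2 ∧ c.sy = b.sy)) :
    grp2 (b :: bs) = b :: c :: cs := by
  rw [grp2, h]
  exact if_neg hc

theorem wd_add (a : Bool) (k n m : ℕ) :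
    SBl.wd ⟨a, k, n + m⟩ = SBl.wd ⟨a, k, n⟩ ++ SBl.wd ⟨a, k, m⟩ := by
  show (List.replicate (n + m) (syl a k)).flatten = _
  rw [List.replicate_add, List.flatten_append]
  rfl

theorem grp2_wd (bs : List SBl) :
    ((grp2 bs).map SBl.wd).flatten = (bs.map SBl.wd).flatten := by
  induction bs with
  | nil => rfl
  | cons b bs ih =>
    rw [List.map_cons, List.flatten_cons, ← ih]
    rcases hg : grp2 bs with _ | ⟨c, cs⟩
    · rw [grp2_cons_nil b bs hg]
      simp
    · by_cases hc : b.k = 2 ∧ c.sy = b.sy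
      · rw [grp2_cons_pos b bs c cs hg hc, List.map_cons, List.flatten_cons, List.map_cons,
          List.flatten_cons, wd_add, List.append_assoc]
        have e : c = ⟨b.a, b.k, c.n⟩ := by
          obtain ⟨a, k, n⟩ := c
          have h2 : ((a, k) : Sy) = (b.a, b.k) := hc.2
          have e1 : a = b.a := congrArg Prod.fst h2
          have e2 : k = b.k := congrArg Prod.snd h2
          rw [e1, e2]
        rw [← e]
      · rw [grp2_cons_neg b bs c cs hg hc, List.map_cons, List.flatten_cons]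

/-- type of the first block -/
def hd4 : List SBl → Sy
  | [] => (false, 4)
  | b :: _ => b.sy

theorem grp2_hd (bs : List SBl) : hd4 (grp2 bs) = hd4 bs := by
  rcases bs with _ | ⟨b, bs⟩
  · rfl
  · rcases hg : grp2 bs with _ | ⟨c, cs⟩
    · rw [grp2_cons_nil b bs hg]
      rfl
    · by_cases hc : b.k = 2 ∧ c.sy = b.sy
      · rw [grp2_cons_pos b bs c cs hg hc]
        rfl
      · rw [grp2_cons_neg b bs c cs hg hc]
        rfl

theorem grp2_ok {p q r : ℕ} (bs : List SBl) (h : ∀ b ∈ bs, b.Ok p q r) :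
    ∀ b ∈ grp2 bs, b.Ok2 p q r := by
  induction bs with
  | nil => simp [grp2_nil]
  | cons b bs ih =>
    have hb := h b (by simp)
    have hi := ih (fun c hc => h c (by simp [hc]))
    rcases hg : grp2 bs with _ | ⟨c, cs⟩
    · rw [grp2_cons_nil b bs hg]
      intro d hd
      rw [List.mem_singleton] at hd
      rw [hd]
      exact hb.ok2
    · rw [hg] at hi
      by_cases hc : b.k = 2 ∧ c.sy = b.sy
      · rw [grp2_cons_pos b bs c cs hg hc]
        intro d hd
        rcases List.mem_cons.mp hd with rfl | hd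
        · refine ⟨hb.k1, hb.kp, hb.ka, ?_, ?_, ?_⟩
          · show 1 ≤ b.n + c.n
            have := hb.n1
            omega
          · intro _ h2
            exact absurd hc.1 h2
          · intro h1
            have h1 : b.k = 1 := h1
            have := hc.1
            omega
        · exact hi d (by simp [hd])
      · rw [grp2_cons_neg b bs c cs hg hc]
        intro d hd
        rcases List.mem_cons.mp hd with rfl | hd
        · exact hb.ok2
        · exact hi d hd

theorem grp2_chain {p q r : ℕ} (bs : List SBl) (h : List.IsChain (SBl.Nx p q r) bs) :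
    List.IsChain (fun b c => SyNe2 b.sy c.sy) (grp2 bs) := by
  induction bs with
  | nil => exact List.isChain_nil
  | cons b bs ih =>
    have hc' : List.IsChain (SBl.Nx p q r) bs := by
      rcases bs with _ | ⟨c, bs⟩
      · exact List.isChain_nil
      · rw [List.isChain_cons_cons] at h
        exact h.2
    have hi := ih hc'
    rcases hg : grp2 bs with _ | ⟨c, cs⟩
    · rw [grp2_cons_nil b bs hg]
      exact List.isChain_singleton _
    · rw [hg] at hi
      by_cases hc : b.k = 2 ∧ c.sy = b.sy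
      · rw [grp2_cons_pos b bs c cs hg hc]
        rcases cs with _ | ⟨d, cs⟩
        · exact List.isChain_singleton _
        · rw [List.isChain_cons_cons] at hi ⊢
          refine ⟨?_, hi.2⟩
          show SyNe2 b.sy d.sy
          rw [← hc.2]
          exact hi.1
      · rw [grp2_cons_neg b bs c cs hg hc, List.isChain_cons_cons]
        refine ⟨?_, hi⟩
        rintro ⟨e1, e2⟩
        rcases e2 with e2 | e2
        · rcases bs with _ | ⟨b', bs'⟩
          · rw [grp2_nil] at hg
            exact absurd hg (by simp)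
          · rw [List.isChain_cons_cons] at h
            have e3 : c.sy = b'.sy := by
              have h3 := grp2_hd (b' :: bs')
              rw [hg] at h3
              exact h3
            have e4 : b.sy = b'.sy := e1.trans e3
            exact h.1.ne ⟨congrArg Prod.fst e4, congrArg Prod.snd e4, e2⟩
        · exact hc ⟨e2, e1.symm⟩

theorem sy04 (p : ℕ) (hp : 4 ≤ p) : SyOk p (false, 4) := by
  refine ⟨by norm_num, ?_, by simp⟩
  show 4 ≤ p
  omega

theorem hd4_ok (p q r : ℕ) (hp : 4 ≤ p) (bs : List SBl) (h : ∀ b ∈ bs, b.Ok2 p q r) :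
    SyOk p (hd4 bs) := by
  rcases bs with _ | ⟨b, bs⟩
  · exact sy04 p hp
  · have := h b (by simp)
    exact ⟨this.k1, this.kp, this.ka⟩

theorem exists_path2 (p q r : ℕ) (hp : 4 ≤ p) : ∀ (bs : List SBl) (pv : Sy), SyOk p pv →
    (∀ b ∈ bs, b.Ok2 p q r) → List.IsChain (fun b c : SBl => SyNe2 b.sy c.sy) bs →
    SyNe2 pv (hd4 bs) →
    ∃ (ts : List (TB2 p q r)) (s' : Sy × Sy), BPath TB2.src TB2.tgt (pv, hd4 bs) ts s' ∧
      ts.map (fun b => b.cur) = bs ∧ s'.2 = (false, 4) ∧ SyOk p s'.1 := by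
  intro bs
  induction bs with
  | nil =>
    intro pv h _ _ _
    exact ⟨[], _, BPath.nil _, rfl, rfl, h⟩
  | cons b bs ih =>
    intro pv h1 h2 h3 h4
    have hb := h2 b (by simp)
    have hbs : ∀ c ∈ bs, c.Ok2 p q r := fun c hc => h2 c (by simp [hc])
    have hne : SyNe2 b.sy (hd4 bs) := by
      rcases bs with _ | ⟨c, bs⟩
      · rintro ⟨e1, e2⟩
        have e3 : b.sy = (false, 4) := e1
        rw [e3] at e2
        norm_num at e2
      · rw [List.isChain_cons_cons] at h3
        exact h3.1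
    have hc : List.IsChain (fun b c : SBl => SyNe2 b.sy c.sy) bs := by
      rcases bs with _ | ⟨c, bs⟩
      · exact List.isChain_nil
      · rw [List.isChain_cons_cons] at h3
        exact h3.2
    obtain ⟨ts, s', e1, e2, e3, e4⟩ := ih b.sy ⟨hb.k1, hb.kp, hb.ka⟩ hbs hc hne
    refine ⟨⟨pv, b, hd4 bs, h1, hb, hd4_ok p q r hp bs hbs, h4, hne⟩ :: ts, s', ?_, ?_, e3, e4⟩
    · exact BPath.cons (src := TB2.src) (tgt := TB2.tgt)
        (⟨pv, b, hd4 bs, h1, hb, hd4_ok p q r hp bs hbs, h4, hne⟩ : TB2 p q r) e1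
    · rw [List.map_cons, e2]

theorem cov2 (p q r : ℕ) (hp : 4 ≤ p) (hq : 3 ≤ q) (hr : 3 ≤ r) (w : List (Fin 3)) :
    ∃ (h t : List (Fin 3)) (s : Sy × Sy) (bs : List (TB2 p q r)) (s' : Sy × Sy),
      h.length ≤ p + 1 ∧ t.length ≤ p + 1 ∧ s.1 = (false, 4) ∧ SyOk p s.2 ∧
      BPath TB2.src TB2.tgt s bs s' ∧ s'.2 = (false, 4) ∧ SyOk p s'.1 ∧
      Eqv p q r w (h ++ (bs.map (fun b => b.cur.wd)).flatten ++ t) := by
  obtain ⟨h, t, bs, h1, h2, h3, h4, h5⟩ := st_RED p q r (by omega) hq hr w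
  have k3 := grp2_ok bs h3
  have k4 := grp2_chain bs h4
  have hne : SyNe2 (false, 4) (hd4 (grp2 bs)) := by
    rintro ⟨e1, e2⟩
    norm_num at e2
  obtain ⟨ts, s', e1, e2, e3, e4⟩ := exists_path2 p q r hp (grp2 bs) (false, 4) (sy04 p hp) k3 k4 hne
  refine ⟨h, t, ((false, 4), hd4 (grp2 bs)), ts, s', h1, h2, rfl, hd4_ok p q r hp _ k3, e1, e3, e4,
    ?_⟩
  have : ts.map (fun b => b.cur.wd) = (grp2 bs).map SBl.wd := by
    rw [← e2, List.map_map]
    rfl
  rw [this, grp2_wd]
  exact h5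

theorem SyNe2.syi {p : ℕ} {s t : Sy} (h : SyNe2 s t) : SyNe2 (syi p t) (syi p s) := by
  rintro ⟨e, ho⟩
  rw [syi_snd] at ho
  have e2 : t = s := by
    rw [← syi_syi p t, e, syi_syi]
  exact h ⟨e2.symm, by rw [← e2]; exact ho⟩

theorem bli_ok2 {p q r : ℕ} {b : SBl} (h : b.Ok2 p q r) : (bli p b).Ok2 p q r := by
  have hs : SyOk p b.sy := ⟨h.k1, h.kp, h.ka⟩
  have h1 := syi_ok hs
  have hk : (bli p b).k = b.k := syi_snd p b.sy
  refine ⟨h1.1, h1.2.1, h1.2.2, h.n1, ?_, ?_⟩
  · intro he h2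
    rw [hk] at he h2
    exact h.ev he h2
  · intro he
    rw [hk] at he
    have e : bli p b = b := by
      have : Pool.Agent.Helper6.MONO.W2.syi p b.sy = b.sy := syi_of_odd p b.sy (by
        show b.k % 2 = 1
        omega)
      unfold bli
      rw [this]
      rfl
    rw [e]
    exact h.run he

/-- **the system of blocks 2** -/
def bsys2 (p q r : ℕ) (hp : 4 ≤ p) (hq : 3 ≤ q) (hr : 3 ≤ r) : BSys p q r where
  B := TB2 p q r
  prev := TB2.prev
  cur := TB2.cur
  next := TB2.next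
  a0 := (false, 4)
  ok0 := sy04 p hp
  okp := fun β => β.okp
  okc := fun β => ⟨⟨β.okc.k1, β.okc.kp, β.okc.ka⟩, β.okc.n1⟩
  okn := fun β => β.okn
  rev := fun β => ⟨⟨syi p β.next, bli p β.cur, syi p β.prev, syi_ok β.okn, bli_ok2 β.okc,
    syi_ok β.okp, β.ne2.syi, β.ne1.syi⟩, rfl, rfl, rfl, rfl⟩
  cov := fun w => by
    obtain ⟨h, t, s, bs, s', h1, h2, h3, h4, h5, h6, h7, h8⟩ := cov2 p q r hp hq hr w
    exact ⟨h, t, s, bs, s', h1, h2, h3, h4, h5, h6, h7, h8⟩

end Pool.Agent.Helper6.MONO.W2
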