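import Pool.Agent.Helper12.CW.NF0

/-!
Plan W (MP_c75db0), normalised star frame: the system of blocks `bsys1` (blocks with the types of
the neighbouring syllables, start type the rotation `0 1`).
-/

set_option autoImplicit false
noncomputable section
namespace Pool.Agent.Helper6.MONO.W2

theorem syi_snd (p : ℕ) (s : Sy) : (syi p s).2 = s.2 := by
  unfold syi
  split <;> rfl

theorem syi_of_odd (p : ℕ) (s : Sy) (h : s.2 % 2 = 1) : syi p s = s := by
  unfold syi
  rw [if_pos (Or.inl h)]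

theorem syi_of_max (p : ℕ) (s : Sy) (h : s.2 = p) : syi p s = s := by
  unfold syi
  rw [if_pos (Or.inr h)]

theorem syi_of_neg (p : ℕ) (s : Sy) (h1 : s.2 % 2 = 0) (h2 : s.2 ≠ p) :
    syi p s = (!s.1, s.2) := by
  unfold syi
  rw [if_neg]
  rintro (h | h)
  · omega
  · exact h2 h

theorem syi_syi (p : ℕ) (s : Sy) : syi p (syi p s) = s := by
  by_cases h : s.2 % 2 = 1 ∨ s.2 = p
  · have e : syi p s = s := by
      unfold syi
      rw [if_pos h]
    rw [e, e]
  · have h1 : s.2 % 2 = 0 := by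
      by_contra hc
      exact h (Or.inl (by omega))
    have h2 : s.2 ≠ p := fun hc => h (Or.inr hc)
    have e : syi p s = (!s.1, s.2) := syi_of_neg p s h1 h2
    rw [e, syi_of_neg p (!s.1, s.2) h1 h2]
    obtain ⟨a, k⟩ := s
    cases a <;> rfl

theorem syi_ok {p : ℕ} {s : Sy} (h : SyOk p s) : SyOk p (syi p s) := by
  refine ⟨by rw [syi_snd]; exact h.1, by rw [syi_snd]; exact h.2.1, ?_⟩
  intro h1
  rw [syi_snd]
  by_cases h2 : s.2 = p
  · rw [syi_of_max p s h2] at h1
    exact h.2.2 h1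
  · have := h.2.1
    omega

theorem SyNe.syi {p : ℕ} {s t : Sy} (h : SyNe s t) : SyNe (syi p t) (syi p s) := by
  rintro ⟨e, ho⟩
  rw [syi_snd] at ho
  have e2 : t = s := by
    rw [← syi_syi p t, e, syi_syi]
  exact h ⟨e2.symm, by rw [← e2]; exact ho⟩

/-- the inverse block -/
def bli (p : ℕ) (b : SBl) : SBl := ⟨(syi p b.sy).1, (syi p b.sy).2, b.n⟩

theorem bli_sy (p : ℕ) (b : SBl) : (bli p b).sy = syi p b.sy := rfl

theorem bli_ok {p q r : ℕ} {b : SBl} (h : b.Ok p q r) : (bli p b).Ok p q r := by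
  have hs : SyOk p b.sy := ⟨h.k1, h.kp, h.ka⟩
  have h1 := syi_ok hs
  have hk : (bli p b).k = b.k := syi_snd p b.sy
  refine ⟨h1.1, h1.2.1, h1.2.2, h.n1, ?_, ?_⟩
  · intro he
    rw [hk] at he
    exact h.ev he
  · intro he
    rw [hk] at he
    have e : bli p b = b := by
      have : syi p b.sy = b.sy := syi_of_odd p b.sy (by
        show b.k % 2 = 1
        omega)
      unfold bli
      rw [this]
      rfl
    rw [e]
    exact h.run he

/-- **the system of blocks 1** -/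
def bsys1 (p q r : ℕ) (hp : 3 ≤ p) (hq : 3 ≤ q) (hr : 3 ≤ r) : BSys p q r where
  B := TB p q r
  prev := TB.prev
  cur := TB.cur
  next := TB.next
  a0 := (false, 2)
  ok0 := sy02 p hp
  okp := fun β => β.okp
  okc := fun β => ⟨⟨β.okc.k1, β.okc.kp, β.okc.ka⟩, β.okc.n1⟩
  okn := fun β => β.okn
  rev := fun β => ⟨⟨syi p β.next, bli p β.cur, syi p β.prev, syi_ok β.okn, bli_ok β.okc,
    syi_ok β.okp, β.ne2.syi, β.ne1.syi⟩, rfl, rfl, rfl, rfl⟩
  cov := fun w => by
    obtain ⟨h, t, s, bs, s', h1, h2, h3, h4, h5, h6⟩ := cov' p q r hp hq hr w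
    exact ⟨h, t, s, bs, s', h1, h2, h3.1, h3.2, h4, h5.1, h5.2, h6⟩

end Pool.Agent.Helper6.MONO.W2
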